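import Mathlib

set_option autoImplicit false

/-!
MP_0dbebe_co: `s_q(H) = q n = m (q - 1) + n` for every 2-regular graph `H` and every odd `q`.
-/

namespace Pool.Agent.Results.MP_0dbebe_co.TwoRegular

open Finset

/-- A subdivision of the cycle `C_n` (vertex set `Fin n`, edges `{j, j+1}` taken cyclically) in the
complete graph on `V`, all of whose subdivision paths have weight `0`.  The path replacing the edge
`{j, j+1}` is `P j 0, P j 1, ..., P j (len j)`; it starts at the branch vertex `P j 0` and ends at
the branch vertex `P (j+1) 0`.  The vertices `P j i` (`i < len j`) are pairwise different, i.e. the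
branch vertices are different, the paths are paths, they are internally disjoint and
their inner vertices are not branch vertices. -/
structure DivCycle {V A : Type*} [AddCommMonoid A] (n : ℕ) [NeZero n] (w : V → V → A) where
  len : Fin n → ℕ
  P : Fin n → ℕ → V
  pos : ∀ j, 0 < len j
  closes : ∀ j, P j (len j) = P (j + 1) 0
  inj : ∀ j i j' i', i < len j → i' < len j' → P j i = P j' i' → j = j' ∧ i = i'
  zero : ∀ j, ∑ i ∈ range (len j), w (P j i) (P j (i + 1)) = 0

theorem of_cyclic {V A : Type*} [AddCommGroup A] (w : V → V → A) (n : ℕ) [NeZero n] (L : ℕ)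
    (c : ℕ → V)
    (hper : ∀ i, c (i + L) = c i) (hinj : ∀ i j, i < L → j < L → c i = c j → i = j)
    (htot : ∑ i ∈ range L, w (c i) (c (i+1)) = 0)
    (M : Finset ℕ) (hML : ∀ i ∈ M, i < L) (hM : M.card = n) (h : A)
    (hs : ∀ i ∈ M, ∑ k ∈ range i, w (c k) (c (k+1)) = h) : Nonempty (DivCycle n w) := by
  classical
  set e := M.orderEmbOfFin hM with he
  have heM : ∀ j, e j ∈ M := fun j => M.orderEmbOfFin_mem hM j
  have heL : ∀ j, e j < L := fun j => hML _ (heM j)
  have he0 : ∀ j, e 0 ≤ e j := fun j => e.monotone (Fin.zero_le j)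
  let nxt : Fin n → ℕ := fun j => if j.val + 1 < n then e (j + 1) else e 0 + L
  have hval : ∀ j : Fin n, j.val + 1 < n → (j + 1).val = j.val + 1 := by
    intro j hj
    rw [Fin.val_add, Fin.val_one']
    rw [Nat.mod_eq_of_lt (show 1 < n by omega), Nat.mod_eq_of_lt hj]
  have hzero : ∀ j : Fin n, ¬ (j.val + 1 < n) → j + 1 = 0 := by
    intro j hj
    have hjn : j.val + 1 = n := by have := j.isLt; omega
    apply Fin.ext
    rw [Fin.val_add, Fin.val_one', Fin.val_zero]
    rcases Nat.lt_or_ge 1 n with h1 | h1
    · rw [Nat.mod_eq_of_lt h1, hjn, Nat.mod_self]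
    · have : n = 1 := by have := NeZero.pos n; omega
      subst this
      simp
  have hlt : ∀ j, e j < nxt j := by
    intro j
    by_cases hj : j.val + 1 < n
    · simp only [nxt, hj, if_true]
      apply e.strictMono
      rw [Fin.lt_def, hval j hj]; omega
    · simp only [nxt, hj, if_false]
      have := heL j; omega
  have hup : ∀ j, nxt j ≤ e 0 + L := by
    intro j
    by_cases hj : j.val + 1 < n
    · simp only [nxt, hj, if_true]
      have := heL (j+1); omega
    · simp only [nxt, hj, if_false]; exact le_refl _
  have hc : ∀ j, c (nxt j) = c (e (j + 1)) := by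
    intro j
    by_cases hj : j.val + 1 < n
    · simp only [nxt, hj, if_true]
    · simp only [nxt, hj, if_false]
      rw [hper, hzero j hj]
  have hsn : ∀ j, ∑ k ∈ range (nxt j), w (c k) (c (k+1)) = h := by
    intro j
    by_cases hj : j.val + 1 < n
    · simp only [nxt, hj, if_true]
      exact hs _ (heM _)
    · simp only [nxt, hj, if_false]
      rw [add_comm, Finset.sum_range_add, htot, zero_add, ← hs _ (heM 0)]
      apply Finset.sum_congr rfl
      intro k _
      rw [add_comm L k, hper, show k + L + 1 = (k + 1) + L by ring, hper]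
  have hinj2 : ∀ p p', e 0 ≤ p → e 0 ≤ p' → p < e 0 + L → p' < e 0 + L → c p = c p' → p = p' := by
    intro p p' h1 h2 h3 h4 h5
    have hL := heL 0
    rcases Nat.lt_or_ge p L with hp | hp <;> rcases Nat.lt_or_ge p' L with hp' | hp'
    · exact hinj _ _ hp hp' h5
    · obtain ⟨k', rfl⟩ := Nat.exists_eq_add_of_le' hp'
      rw [hper] at h5
      have := hinj _ _ hp (by omega) h5
      omega
    · obtain ⟨k', rfl⟩ := Nat.exists_eq_add_of_le' hp
      rw [hper] at h5
      have := hinj _ _ (by omega) hp' h5
      omega
    · obtain ⟨k, rfl⟩ := Nat.exists_eq_add_of_le' hp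
      obtain ⟨k', rfl⟩ := Nat.exists_eq_add_of_le' hp'
      rw [hper, hper] at h5
      have := hinj _ _ (by omega) (by omega) h5
      omega
  have hmono : ∀ j j' : Fin n, j < j' → nxt j ≤ e j' := by
    intro j j' hjj
    have hj : j.val + 1 < n := by
      have := j'.isLt
      rw [Fin.lt_def] at hjj; omega
    simp only [nxt, hj, if_true]
    apply e.monotone
    rw [Fin.le_def, hval j hj]
    rw [Fin.lt_def] at hjj; omega
  refine ⟨⟨fun j => nxt j - e j, fun j i => c (e j + i), ?_, ?_, ?_, ?_⟩⟩
  · intro j
    have := hlt j; omega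
  · intro j
    have := hlt j
    show c (e j + (nxt j - e j)) = c (e (j+1) + 0)
    rw [show e j + (nxt j - e j) = nxt j by omega, add_zero]
    exact hc j
  · intro j i j' i' hi hi' hcc
    have hl := hlt j
    have hl' := hlt j'
    have hu := hup j
    have hu' := hup j'
    have h0 := he0 j
    have h0' := he0 j'
    have hpp := hinj2 _ _ (by omega) (by omega) (by omega) (by omega) hcc
    rcases lt_trichotomy j j' with hjj | hjj | hjj
    · have := hmono _ _ hjj
      omega
    · subst hjj
      exact ⟨rfl, by omega⟩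
    · have := hmono _ _ hjj
      omega
  · intro j
    have hl := hlt j
    have h1 := hsn j
    rw [show nxt j = e j + (nxt j - e j) by omega, Finset.sum_range_add, hs _ (heM j)] at h1
    have h2 : ∑ x ∈ range (nxt j - e j), w (c (e j + x)) (c (e j + x + 1)) = 0 := by
      have := add_eq_left.mp h1
      exact this
    exact h2

/-- weight of a list of vertices -/
def wt {V A : Type*} [AddCommMonoid A] (w : V → V → A) : List V → A
  | [] => 0
  | [_] => 0
  | a :: b :: l => w a b + wt w (b :: l)

theorem wt_eq_sum {V A : Type*} [AddCommMonoid A] (w : V → V → A) :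
    ∀ (l : List V) (f : ℕ → V), (∀ i, i < l.length → l[i]? = some (f i)) →
      wt w l = ∑ i ∈ range (l.length - 1), w (f i) (f (i+1))
  | [], f, _ => by simp [wt]
  | [a], f, _ => by simp [wt]
  | a :: b :: l, f, hf => by
    have h0 := hf 0 (by simp)
    have h1 := hf 1 (by simp)
    simp at h0 h1
    rw [wt, wt_eq_sum w (b :: l) (fun i => f (i + 1))]
    · simp only [List.length_cons, Nat.add_sub_cancel]
      rw [Finset.sum_range_succ' _ l.length, h0, h1, add_comm]
    · intro i hi
      have := hf (i + 1) (by simpa using hi)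
      simpa using this

/-- vertices of a list of triples -/
def verts {V : Type*} : List (V × V × V) → List V
  | [] => []
  | t :: T => t.1 :: t.2.1 :: t.2.2 :: verts T

theorem verts_length {V : Type*} : ∀ T : List (V × V × V), (verts T).length = 3 * T.length
  | [] => rfl
  | t :: T => by simp [verts, verts_length T]; ring

/-- what is gained by leaving out the middle vertex -/
def dl {V A : Type*} [AddCommGroup A] (w : V → V → A) (t : V × V × V) : A :=
  w t.1 t.2.1 + w t.2.1 t.2.2 - w t.1 t.2.2

/-- subset sums -/
def sig {V A : Type*} [AddCommGroup A] [DecidableEq A] (w : V → V → A) :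
    List (V × V × V) → Finset A
  | [] => {0}
  | t :: T => sig w T ∪ (sig w T).image (fun s => s + dl w t)

theorem sig_list {V A : Type*} [AddCommGroup A] [DecidableEq A] (w : V → V → A) :
    ∀ (T : List (V × V × V)) (s : A), s ∈ sig w T → ∃ l : List V, l.Sublist (verts T) ∧
      2 * T.length ≤ l.length ∧
      ∀ v0 M, wt w (v0 :: (l ++ M)) = wt w (v0 :: (verts T ++ M)) - s
  | [], s, hs => by
    simp only [sig, Finset.mem_singleton] at hs
    subst hs
    exact ⟨[], by simp [verts], by simp, by simp [verts]⟩
  | t :: T, s, hs => by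
    simp only [sig, Finset.mem_union, Finset.mem_image] at hs
    rcases hs with hs | ⟨s', hs', rfl⟩
    · obtain ⟨l, h1, h2, h3⟩ := sig_list w T s hs
      refine ⟨t.1 :: t.2.1 :: t.2.2 :: l, ?_, ?_, ?_⟩
      · simp only [verts]
        exact ((h1.cons_cons _).cons_cons _).cons_cons _
      · simp; omega
      · intro v0 M
        have := h3 t.2.2 M
        simp only [verts, List.cons_append, wt]
        rw [this]
        abel
    · obtain ⟨l, h1, h2, h3⟩ := sig_list w T s' hs'
      refine ⟨t.1 :: t.2.2 :: l, ?_, ?_, ?_⟩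
      · simp only [verts]
        exact ((h1.cons_cons _).cons _).cons_cons _
      · simp; omega
      · intro v0 M
        have := h3 t.2.2 M
        simp only [verts, List.cons_append, wt, dl]
        rw [this]
        abel

theorem exists_max {α : Type*} (Q : α → Prop) (f : α → ℕ) (N : ℕ) (hN : ∀ a, Q a → f a ≤ N)
    (a0 : α) (h0 : Q a0) : ∃ a, Q a ∧ ∀ b, Q b → f b ≤ f a := by
  obtain ⟨a, ha, hmin⟩ := (measure (fun a => N - f a)).wf.has_min {a | Q a} ⟨a0, h0⟩
  refine ⟨a, ha, fun b hb => ?_⟩
  have h1 : ¬ (N - f b < N - f a) := hmin b hb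
  have h2 := hN a ha
  have h3 := hN b hb
  omega

theorem sig_sub {V A : Type*} [AddCommGroup A] [DecidableEq A] (w : V → V → A) (H : AddSubgroup A)
    (S : Finset V) (hw : ∀ a ∈ S, ∀ b ∈ S, w a b ∈ H) :
    ∀ T : List (V × V × V), (∀ v ∈ verts T, v ∈ S) → ∀ s ∈ sig w T, s ∈ H
  | [], _, s, hs => by
    simp only [sig, Finset.mem_singleton] at hs
    subst hs
    exact H.zero_mem
  | t :: T, hT, s, hs => by
    have h1 : t.1 ∈ S := hT _ (by simp [verts])
    have h2 : t.2.1 ∈ S := hT _ (by simp [verts])
    have h3 : t.2.2 ∈ S := hT _ (by simp [verts])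
    have hT' : ∀ v ∈ verts T, v ∈ S := fun v hv => hT _ (by simp [verts, hv])
    simp only [sig, Finset.mem_union, Finset.mem_image] at hs
    rcases hs with hs | ⟨s', hs', rfl⟩
    · exact sig_sub w H S hw T hT' s hs
    · refine H.add_mem (sig_sub w H S hw T hT' s' hs') ?_
      exact H.sub_mem (H.add_mem (hw _ h1 _ h2) (hw _ h2 _ h3)) (hw _ h1 _ h3)

theorem zero_mem_sig {V A : Type*} [AddCommGroup A] [DecidableEq A] (w : V → V → A) :
    ∀ T : List (V × V × V), (0 : A) ∈ sig w T
  | [] => by simp [sig]
  | t :: T => by simp [sig, zero_mem_sig w T]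

theorem wt_mem {V A : Type*} [AddCommGroup A] (w : V → V → A) (H : AddSubgroup A)
    (S : Finset V) (hw : ∀ a ∈ S, ∀ b ∈ S, w a b ∈ H) :
    ∀ l : List V, (∀ v ∈ l, v ∈ S) → wt w l ∈ H
  | [], _ => H.zero_mem
  | [_], _ => H.zero_mem
  | a :: b :: l, hl => by
    rw [wt]
    exact H.add_mem (hw _ (hl _ (by simp)) _ (hl _ (by simp)))
      (wt_mem w H S hw (b :: l) (fun v hv => hl _ (List.mem_cons_of_mem _ hv)))

/-- the stabiliser of a finite set -/
def stab {A : Type*} [AddCommGroup A] [DecidableEq A] (E : Finset A) : AddSubgroup A where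
  carrier := {g | E.image (fun s => s + g) = E}
  zero_mem' := by
    show E.image (fun s => s + 0) = E
    have : (fun s : A => s + 0) = id := by funext s; simp
    rw [this, Finset.image_id]
  add_mem' := by
    intro g h hg hh
    simp only [Set.mem_ofPred_eq] at *
    have : E.image (fun s => s + (g + h)) = (E.image (fun s => s + g)).image (fun s => s + h) := by
      rw [Finset.image_image]
      congr 1
      funext s
      simp [add_assoc]
    rw [this, hg, hh]
  neg_mem' := by
    intro g hg
    simp only [Set.mem_ofPred_eq] at *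
    have : (E.image (fun s => s + g)).image (fun s => s + -g) = E := by
      rw [Finset.image_image]
      have : ((fun s => s + -g) ∘ fun s => s + g) = (id : A → A) := by
        funext s; simp
      rw [this, Finset.image_id]
    rw [hg] at this
    exact this

theorem mem_stab {A : Type*} [AddCommGroup A] [DecidableEq A] (E : Finset A) (g : A) :
    g ∈ stab E ↔ E.image (fun s => s + g) = E := Iff.rfl

theorem close {V A : Type*} [DecidableEq V] [AddCommGroup A] [DecidableEq A] [Finite A]
    (w : V → V → A) (n : ℕ) [NeZero n] (hn : 3 ≤ n) (N : ℕ) (H : AddSubgroup A)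
    (hH : Nat.card H = N) (S : Finset V) (hw : ∀ a ∈ S, ∀ b ∈ S, w a b ∈ H)
    (hS : n * N ≤ S.card) (T : List (V × V × V)) (hT : (verts T).Nodup)
    (hTS : ∀ v ∈ verts T, v ∈ S) (hTl : T.length + 1 ≤ N) (hall : ∀ g ∈ H, g ∈ sig w T) :
    Nonempty (DivCycle n w) := by
  classical
  have hfin : Fintype A := Fintype.ofFinite A
  have hcard : (S \ (verts T).toFinset).card + 3 * T.length = S.card := by
    rw [← verts_length, ← List.toFinset_card_of_nodup hT]
    apply Finset.card_sdiff_add_card_eq_card
    intro v hv
    exact hTS v (List.mem_toFinset.1 hv)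
  have hnN : 3 * N ≤ n * N := Nat.mul_le_mul_right _ hn
  set rest := (S \ (verts T).toFinset).toList with hrest
  have hrl : rest.length + 3 * T.length = S.card := by
    rw [hrest, Finset.length_toList]; exact hcard
  have hrn : rest.Nodup := Finset.nodup_toList _
  have hrm : ∀ v, v ∈ rest ↔ v ∈ S ∧ v ∉ verts T := by
    intro v
    rw [hrest, Finset.mem_toList, Finset.mem_sdiff, List.mem_toFinset]
  clear_value rest
  rcases rest with _ | ⟨v0, rest'⟩
  · simp at hrl; omega
  have hv0 : v0 ∈ S := ((hrm v0).1 (by simp)).1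
  have hWm : wt w (v0 :: (verts T ++ (rest' ++ [v0]))) ∈ H := by
    apply wt_mem w H S hw
    intro v hv
    simp only [List.mem_cons, List.mem_append, List.not_mem_nil, or_false] at hv
    rcases hv with rfl | hv | hv | rfl
    · exact hv0
    · exact hTS v hv
    · exact ((hrm v).1 (by simp [hv])).1
    · exact hv0
  obtain ⟨l, hl1, hl2, hl3⟩ := sig_list w T _ (hall _ hWm)
  set C := v0 :: (l ++ rest') with hC
  have hCn : C.Nodup := by
    have h1 : (verts T ++ (v0 :: rest')).Nodup := by
      apply List.Nodup.append hT hrn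
      intro v hv hv'
      exact ((hrm v).1 hv').2 hv
    have h2 : (v0 :: (verts T ++ rest')).Nodup := (List.perm_middle.nodup_iff).1 h1
    exact h2.sublist ((hl1.append (List.Sublist.refl rest')).cons_cons v0)
  have hCS : ∀ v ∈ C, v ∈ S := by
    intro v hv
    simp only [hC, List.mem_cons, List.mem_append] at hv
    rcases hv with rfl | hv | hv
    · exact hv0
    · exact hTS v (hl1.subset hv)
    · exact ((hrm v).1 (by simp [hv])).1
  have hCw : wt w (C ++ [v0]) = 0 := by
    have := hl3 v0 (rest' ++ [v0])
    simp only [hC, List.cons_append, List.append_assoc]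
    rw [this, sub_self]
  set L := C.length with hL
  have hLpos : 0 < L := by rw [hL, hC]; simp
  have hLge : (n - 1) * N < L := by
    have h1 : L = 1 + l.length + rest'.length := by
      rw [hL, hC]; simp; omega
    simp only [List.length_cons] at hrl
    have h2 : (n - 1) * N + N = n * N := by
      have : n = (n - 1) + 1 := by omega
      conv_rhs => rw [this]
      ring
    omega
  let c : ℕ → V := fun i => C.getD (i % L) v0
  have hc1 : ∀ i, i < L → C[i]? = some (c i) := by
    intro i hi
    simp only [c]
    rw [Nat.mod_eq_of_lt hi, List.getD_eq_getElem _ _ (hL ▸ hi)]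
    exact List.getElem?_eq_getElem (hL ▸ hi)
  have hcC : ∀ i, c i ∈ C := by
    intro i
    have hi : i % L < C.length := hL ▸ Nat.mod_lt _ hLpos
    simp only [c]
    rw [List.getD_eq_getElem _ _ hi]
    exact List.getElem_mem _
  have hper : ∀ i, c (i + L) = c i := by
    intro i
    simp only [c, Nat.add_mod_right]
  have hinj : ∀ i j, i < L → j < L → c i = c j → i = j := by
    intro i j hi hj hij
    simp only [c] at hij
    rw [Nat.mod_eq_of_lt hi, Nat.mod_eq_of_lt hj, List.getD_eq_getElem _ _ (hL ▸ hi),
      List.getD_eq_getElem _ _ (hL ▸ hj)] at hij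
    exact (hCn.getElem_inj_iff).1 hij
  have htot : ∑ i ∈ range L, w (c i) (c (i+1)) = 0 := by
    rw [← hCw, wt_eq_sum w (C ++ [v0]) c]
    · simp [hL]
    · intro i hi
      rw [List.length_append, List.length_singleton] at hi
      rcases Nat.lt_or_ge i L with h | h
      · rw [List.getElem?_append_left (hL ▸ h)]
        exact hc1 i h
      · have hiL : i = L := by omega
        rw [hiL, List.getElem?_append_right (by omega)]
        have h0 : c L = v0 := by
          simp only [c, Nat.mod_self]
          rw [hC]; rfl
        rw [h0, ← hL]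
        simp
  have hHs : ∀ i ∈ range L, (∑ k ∈ range i, w (c k) (c (k+1))) ∈
      (Finset.univ.filter (fun g => g ∈ H)) := by
    intro i _
    rw [Finset.mem_filter]
    refine ⟨Finset.mem_univ _, H.sum_mem fun k _ => hw _ (hCS _ (hcC _)) _ (hCS _ (hcC _))⟩
  have hHc : (Finset.univ.filter (fun g => g ∈ H)).card = N := by
    rw [← hH, Nat.card_eq_fintype_card, ← Fintype.card_subtype]
  obtain ⟨h, _, hh⟩ := Finset.exists_lt_card_fiber_of_mul_lt_card_of_maps_to (n := n - 1) hHs
    (by rw [hHc, Finset.card_range, mul_comm]; exact hLge)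
  obtain ⟨M, hM1, hM2⟩ := Finset.exists_subset_card_eq (n := n) (s :=
    (range L).filter (fun i => (∑ k ∈ range i, w (c k) (c (k+1))) = h)) (by omega)
  refine of_cyclic w n L c hper hinj htot M ?_ hM2 h ?_
  · intro i hi
    have := hM1 hi
    rw [Finset.mem_filter, Finset.mem_range] at this
    exact this.1
  · intro i hi
    have := hM1 hi
    rw [Finset.mem_filter] at this
    exact this.2

theorem main_upper {V A : Type*} [DecidableEq V] [AddCommGroup A] [DecidableEq A] [Finite A]
    (w : V → V → A) (hsym : ∀ a b, w a b = w b a) (hdiag : ∀ a, w a a = 0)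
    (n : ℕ) [NeZero n] (hn : 3 ≤ n) :
    ∀ (N : ℕ) (H : AddSubgroup A), Nat.card H = N → Odd N → ∀ S : Finset V,
      (∀ a ∈ S, ∀ b ∈ S, w a b ∈ H) → n * N ≤ S.card → Nonempty (DivCycle n w) := by
  classical
  have hfin : Fintype A := Fintype.ofFinite A
  intro N
  induction N using Nat.strong_induction_on with
  | _ N ih =>
  intro H hH hodd S hw hS
  have hHc : (Finset.univ.filter (fun g => g ∈ H)).card = N := by
    rw [← hH, Nat.card_eq_fintype_card, ← Fintype.card_subtype]
  have hNpos : 0 < N := hodd.pos
  have hnN : 3 * N ≤ n * N := Nat.mul_le_mul_right _ hn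
  -- admissible families of triples
  let Q : List (V × V × V) → Prop := fun T =>
    (verts T).Nodup ∧ (∀ v ∈ verts T, v ∈ S) ∧ T.length + 1 ≤ (sig w T).card
  have hsubH : ∀ T, Q T → (sig w T) ⊆ Finset.univ.filter (fun g => g ∈ H) := by
    intro T hT s hs
    rw [Finset.mem_filter]
    exact ⟨Finset.mem_univ _, sig_sub w H S hw T hT.2.1 s hs⟩
  obtain ⟨T, hQ, hmax⟩ := exists_max Q (fun T => (sig w T).card) N
    (fun T hT => hHc ▸ Finset.card_le_card (hsubH T hT)) []
    ⟨by simp [verts], by simp [verts], by simp [sig]⟩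
  have hcT : (sig w T).card ≤ N := hHc ▸ Finset.card_le_card (hsubH T hQ)
  by_cases hall : ∀ g ∈ H, g ∈ sig w T
  · exact close w n hn N H hH S hw hS T hQ.1 hQ.2.1 (le_trans hQ.2.2 hcT) hall
  · push Not at hall
    obtain ⟨h0, h0H, h0s⟩ := hall
    set K := stab (sig w T) with hK
    have hKH : K ≤ H := by
      intro g hg
      have h1 : (0 : A) + g ∈ (sig w T).image (fun s => s + g) :=
        Finset.mem_image_of_mem _ (zero_mem_sig w T)
      rw [(mem_stab _ _).1 hg, zero_add] at h1
      exact sig_sub w H S hw T hQ.2.1 g h1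
    set κ := Nat.card K with hκ
    have hKc : (Finset.univ.filter (fun g => g ∈ K)).card = κ := by
      rw [hκ, Nat.card_eq_fintype_card, ← Fintype.card_subtype]
    have hdisj : Disjoint (sig w T)
        ((Finset.univ.filter (fun g => g ∈ K)).image (fun g => h0 + g)) := by
      rw [Finset.disjoint_left]
      intro s hs hs'
      rw [Finset.mem_image] at hs'
      obtain ⟨g, hg, rfl⟩ := hs'
      rw [Finset.mem_filter] at hg
      have hng : -g ∈ K := K.neg_mem hg.2
      have h1 : (h0 + g) + -g ∈ (sig w T).image (fun s => s + -g) :=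
        Finset.mem_image_of_mem _ hs
      rw [(mem_stab _ _).1 hng] at h1
      apply h0s
      simpa using h1
    have hcards : (sig w T).card + κ ≤ N := by
      rw [← hKc, ← Finset.card_image_of_injective (Finset.univ.filter (fun g => g ∈ K))
        (add_right_injective h0), ← Finset.card_union_of_disjoint hdisj, ← hHc]
      apply Finset.card_le_card
      apply Finset.union_subset (hsubH T hQ)
      intro s hs
      rw [Finset.mem_image] at hs
      obtain ⟨g, hg, rfl⟩ := hs
      rw [Finset.mem_filter] at hg ⊢
      exact ⟨Finset.mem_univ _, H.add_mem h0H (hKH hg.2)⟩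
    have hsigpos : 0 < (sig w T).card := Finset.card_pos.2 ⟨0, zero_mem_sig w T⟩
    have hκN : κ < N := by omega
    have hκdvd : κ ∣ N := by
      rw [← hH]
      exact AddSubgroup.card_dvd_of_le hKH
    have hκodd : Odd κ := Odd.of_dvd_nat hodd hκdvd
    set R := S \ (verts T).toFinset with hR
    have hRc : R.card + 3 * T.length = S.card := by
      rw [← verts_length, ← List.toFinset_card_of_nodup hQ.1]
      apply Finset.card_sdiff_add_card_eq_card
      intro v hv
      exact hQ.2.1 v (List.mem_toFinset.1 hv)
    have hRn : n * κ ≤ R.card := by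
      obtain ⟨m, rfl⟩ := Nat.exists_eq_add_of_le' hn
      have h1 : T.length + 1 ≤ (sig w T).card := hQ.2.2
      have h2 : m * κ ≤ m * N := Nat.mul_le_mul_left _ hκN.le
      have h3 : (m + 3) * N = m * N + 3 * N := by ring
      have h4 : (m + 3) * κ = m * κ + 3 * κ := by ring
      rw [h3] at hS
      rw [h4]
      omega
    have hκpos : 0 < κ := hκodd.pos
    have hR3 : 3 ≤ R.card := by
      have : 3 * κ ≤ n * κ := Nat.mul_le_mul_right _ hn
      omega
    have hRm : ∀ v, v ∈ R ↔ v ∈ S ∧ v ∉ verts T := by
      intro v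
      rw [hR, Finset.mem_sdiff, List.mem_toFinset]
    -- gadgets in the rest have value in `K`
    have hgad : ∀ a ∈ R, ∀ x ∈ R, ∀ b ∈ R, a ≠ x → a ≠ b → x ≠ b → dl w (a, x, b) ∈ K := by
      intro a ha x hx b hb hax hab hxb
      by_contra hnot
      have hQ' : Q ((a, x, b) :: T) ∧ (sig w T).card < (sig w ((a, x, b) :: T)).card := by
        have hlt : (sig w T).card < (sig w ((a, x, b) :: T)).card := by
          apply Finset.card_lt_card
          rw [Finset.ssubset_iff_subset_ne]
          refine ⟨by simp only [sig]; exact Finset.subset_union_left, ?_⟩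
          intro heq
          apply hnot
          rw [hK, mem_stab]
          apply Finset.eq_of_subset_of_card_le
          · intro s hs
            rw [heq]
            simp only [sig]
            exact Finset.mem_union_right _ hs
          · rw [Finset.card_image_of_injective _ (add_left_injective _)]
        refine ⟨⟨?_, ?_, ?_⟩, hlt⟩
        · simp only [verts, List.nodup_cons, List.mem_cons, not_or]
          exact ⟨⟨hax, hab, ((hRm a).1 ha).2⟩, ⟨hxb, ((hRm x).1 hx).2⟩, ((hRm b).1 hb).2, hQ.1⟩
        · intro v hv
          simp only [verts, List.mem_cons] at hv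
          rcases hv with rfl | rfl | rfl | hv
          · exact ((hRm _).1 ha).1
          · exact ((hRm _).1 hx).1
          · exact ((hRm _).1 hb).1
          · exact hQ.2.1 v hv
        · have := hQ.2.2
          simp only [List.length_cons]
          omega
      have := hmax _ hQ'.1
      have h2 := hQ'.2
      omega
    have hwK : ∀ a ∈ R, ∀ x ∈ R, w a x ∈ K := by
      intro a ha x hx
      by_cases hax : a = x
      · subst hax
        rw [hdiag]
        exact K.zero_mem
      · obtain ⟨b, hb, hba, hbx⟩ : ∃ b ∈ R, b ≠ a ∧ b ≠ x := by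
          have h1 : ({a, x} : Finset V).card < R.card := by
            have := Finset.card_le_two (a := a) (b := x)
            omega
          obtain ⟨b, hb, hb'⟩ := Finset.exists_mem_notMem_of_card_lt_card h1
          simp only [Finset.mem_insert, Finset.mem_singleton, not_or] at hb'
          exact ⟨b, hb, hb'.1, hb'.2⟩
        have h1 := hgad a ha x hx b hb hax (Ne.symm hba) (Ne.symm hbx)
        have h2 := hgad x hx a ha b hb (Ne.symm hax) (Ne.symm hbx) (Ne.symm hba)
        have h3 := K.add_mem h1 h2
        have h4 : dl w (a, x, b) + dl w (x, a, b) = 2 • w a x := by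
          simp only [dl]
          rw [hsym x a, two_nsmul]
          abel
        rw [h4] at h3
        obtain ⟨r, hr⟩ := hodd
        have h5 : N • w a x = 0 := by
          have hmem : w a x ∈ H := hw a ((hRm a).1 ha).1 x ((hRm x).1 hx).1
          have := card_nsmul_eq_zero' (G := H) (x := ⟨w a x, hmem⟩)
          rw [hH] at this
          simpa [Subtype.ext_iff] using this
        have h6 : (r + 1) • (2 • w a x) = w a x := by
          rw [← mul_nsmul', show (r + 1) * 2 = N + 1 by omega, add_nsmul, h5, zero_add, one_nsmul]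
        rw [← h6]
        exact K.nsmul_mem h3 _
    exact ih κ hκN K rfl hκodd R hwK hRn

/-- A divisible subdivision of the 2-regular graph `H` which is the disjoint union of `r` cycles of
lengths `μ i + 3` (`i : Fin r`): divisible subdivisions of the single cycles, pairwise
vertex-disjoint. -/
def HasDivSubdivision {V A : Type*} [AddCommMonoid A] (r : ℕ) (μ : Fin r → ℕ) (w : V → V → A) :
    Prop :=
  ∃ D : ∀ i : Fin r, DivCycle (μ i + 3) w, ∀ i i', i ≠ i' → ∀ j k j' k',
    k < (D i).len j → k' < (D i').len j' → (D i).P j k ≠ (D i').P j' k'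

theorem ne_succ {V A : Type*} [AddCommMonoid A] (m : ℕ) (w : V → V → A)
    (D : DivCycle (m + 3) w) (j : Fin (m + 3)) (k : ℕ) (hk : k < D.len j) :
    D.P j k ≠ D.P j (k + 1) := by
  intro h
  rcases Nat.lt_or_ge (k + 1) (D.len j) with h1 | h1
  · have := (D.inj j k j (k + 1) hk h1 h).2
    omega
  · have h2 : k + 1 = D.len j := by omega
    rw [h2, D.closes j] at h
    have h3 := (D.inj j k (j + 1) 0 hk (D.pos _) h).1
    have h4 : (1 : Fin (m + 3)) = 0 := by
      have h5 : j + 0 = j + 1 := by rw [add_zero]; exact h3
      exact (add_left_cancel h5).symm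
    have h6 := congrArg Fin.val h4
    simp at h6

/-- `s_q(H) = m (q - 1) + n = q n` for every 2-regular graph `H` (`n` vertices, `m = n` edges) and
every odd `q`. -/
theorem result (q : ℕ) (hq : Odd q) (r : ℕ) (μ : Fin r → ℕ) :
    IsLeast {f : ℕ | ∀ ω : Sym2 (Fin f) → ZMod q,
      HasDivSubdivision r μ (fun a b => ω s(a, b))} (q * ∑ i, (μ i + 3)) := by
  classical
  have : NeZero q := ⟨hq.pos.ne'⟩
  constructor
  · intro ω
    have hcard : Fintype.card (Σ i : Fin r, Fin ((μ i + 3) * q)) =
        Fintype.card (Fin (q * ∑ i, (μ i + 3))) := by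
      rw [Fintype.card_sigma, Fintype.card_fin, Finset.mul_sum]
      apply Finset.sum_congr rfl
      intro i _
      rw [Fintype.card_fin, mul_comm]
    let e := Fintype.equivOfCardEq hcard
    have hD : ∀ i : Fin r, Nonempty (DivCycle (μ i + 3)
        (fun a b : Fin ((μ i + 3) * q) => if a = b then (0 : ZMod q)
          else ω s(e ⟨i, a⟩, e ⟨i, b⟩))) := by
      intro i
      apply main_upper _ _ _ (μ i + 3) (by omega) q ⊤ _ hq Finset.univ
      · intro a _ b _
        exact AddSubgroup.mem_top _
      · rw [Finset.card_univ, Fintype.card_fin]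
      · intro a b
        by_cases hab : a = b
        · subst hab; rfl
        · rw [if_neg hab, if_neg (Ne.symm hab), Sym2.eq_swap]
      · intro a
        simp
      · rw [AddSubgroup.card_top, Nat.card_zmod]
    have D' : ∀ i, DivCycle (μ i + 3)
        (fun a b : Fin ((μ i + 3) * q) => if a = b then (0 : ZMod q)
          else ω s(e ⟨i, a⟩, e ⟨i, b⟩)) := fun i => (hD i).some
    refine ⟨fun i => ⟨(D' i).len, fun j k => e ⟨i, (D' i).P j k⟩, (D' i).pos, ?_, ?_, ?_⟩, ?_⟩
    · intro j
      rw [(D' i).closes j]
    · intro j k j' k' hk hk' h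
      have h1 := e.injective h
      simp only [Sigma.mk.injEq, heq_eq_eq, true_and] at h1
      exact (D' i).inj j k j' k' hk hk' h1
    · intro j
      have h1 := (D' i).zero j
      refine Eq.trans ?_ h1
      apply Finset.sum_congr rfl
      intro k hk
      rw [if_neg (ne_succ _ _ (D' i) j k (Finset.mem_range.1 hk))]
    · intro i i' hii j k j' k' _ _ h
      have h1 := e.injective h
      apply hii
      exact congrArg Sigma.fst h1
  · intro f hf
    obtain ⟨D, hD⟩ := hf (fun _ => 1)
    have hlen : ∀ i j, q ≤ (D i).len j := by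
      intro i j
      have h1 := (D i).zero j
      rw [Finset.sum_const, Finset.card_range, nsmul_one] at h1
      exact Nat.le_of_dvd ((D i).pos j) ((ZMod.natCast_eq_zero_iff _ _).1 h1)
    let g : (Σ i : Fin r, Σ j : Fin (μ i + 3), Fin ((D i).len j)) → Fin f :=
      fun x => (D x.1).P x.2.1 x.2.2
    have hg : Function.Injective g := by
      rintro ⟨i, j, k⟩ ⟨i', j', k'⟩ h
      by_cases hii : i = i'
      · subst hii
        obtain ⟨h1, h2⟩ := (D i).inj j k j' k' k.isLt k'.isLt h
        subst h1
        have h3 : k = k' := Fin.ext h2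
        subst h3
        rfl
      · exact absurd h (hD i i' hii j k j' k' k.isLt k'.isLt)
    have h1 := Fintype.card_le_of_injective g hg
    rw [Fintype.card_fin, Fintype.card_sigma] at h1
    refine le_trans ?_ h1
    rw [Finset.mul_sum]
    apply Finset.sum_le_sum
    intro i _
    rw [Fintype.card_sigma]
    calc q * (μ i + 3) = ∑ _j : Fin (μ i + 3), q := by simp [mul_comm]
      _ ≤ ∑ j : Fin (μ i + 3), Fintype.card (Fin ((D i).len j)) := by
        apply Finset.sum_le_sum
        intro j _
        rw [Fintype.card_fin]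
        exact hlen i j

end Pool.Agent.Results.MP_0dbebe_co.TwoRegular
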